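import Mathlib
import Pool.Agent.W732.Cor.Stm

/-!
Slice localisation for the corona problem, part DU: the domains `|z|² + ∑ exp (2 u_j(z)) |y_j|² < 1`.
-/

set_option autoImplicit false

open MeasureTheory Metric Set Filter Topology Complex
open scoped ContDiff

namespace Pool.Agent.W806.Cor

open Pool.Agent.H788R3.Cor2 Pool.Agent.W732.Cor

/-- slope of the affine support -/
noncomputable def sl (φ : ℂ → ℝ) (c : ℂ) : ℂ :=
  (fderiv ℝ φ c 1 : ℂ) - I * (fderiv ℝ φ c I : ℂ)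

theorem sl_re (φ : ℂ → ℝ) (c v : ℂ) : (sl φ c * v).re = fderiv ℝ φ c v := by
  have h1 : v = (v.re : ℝ) • (1 : ℂ) + (v.im : ℝ) • I := by
    apply Complex.ext <;> simp
  have h2 : fderiv ℝ φ c v = v.re * fderiv ℝ φ c 1 + v.im * fderiv ℝ φ c I := by
    conv_lhs => rw [h1]
    rw [map_add, map_smul, map_smul, smul_eq_mul, smul_eq_mul]
  rw [h2]
  simp [sl]
  ring

theorem support {U : Set ℂ} (hU : IsOpen U) {φ : ℂ → ℝ} (hφ : ConvexOn ℝ U φ)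
    (hd : DifferentiableOn ℝ φ U) {c z : ℂ} (hc : c ∈ U) (hz : z ∈ U) :
    φ c + fderiv ℝ φ c (z - c) ≤ φ z := by
  set L : ℝ →ᵃ[ℝ] ℂ := AffineMap.lineMap c z with hL
  have h1 : ConvexOn ℝ (L ⁻¹' U) (φ ∘ L) := hφ.comp_affineMap L
  have hL0 : L 0 = c := by simp [hL]
  have hL1 : L 1 = z := by simp [hL]
  have h2 : HasDerivAt (φ ∘ L) (fderiv ℝ φ c (z - c)) 0 := by
    have h3 : HasDerivAt L (z - c) 0 := by
      have := AffineMap.hasDerivAt_lineMap (𝕜 := ℝ) (a := c) (b := z) (x := (0 : ℝ))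
      exact this
    have h4 : HasFDerivAt φ (fderiv ℝ φ c) (L 0) := by
      rw [hL0]
      exact ((hd c hc).differentiableAt (hU.mem_nhds hc)).hasFDerivAt
    exact h4.comp_hasDerivAt (0 : ℝ) h3
  have h5 := h1.le_slope_of_hasDerivAt (x := 0) (y := 1) (by
    change L 0 ∈ U
    rw [hL0]; exact hc) (by
    change L 1 ∈ U
    rw [hL1]; exact hz) one_pos h2
  rw [slope_def_field] at h5
  simp only [Function.comp_apply, hL0, hL1, sub_zero, div_one] at h5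
  linarith

theorem sl_cont {U : Set ℂ} (hU : IsOpen U) {φ : ℂ → ℝ} (hd : ContDiffOn ℝ 1 φ U) :
    ContinuousOn (sl φ) U := by
  have h1 : ContinuousOn (fderiv ℝ φ) U := hd.continuousOn_fderiv_of_isOpen hU le_rfl
  have h2 : ∀ v : ℂ, ContinuousOn (fun c => ((fderiv ℝ φ c v : ℝ) : ℂ)) U := fun v =>
    Complex.continuous_ofReal.comp_continuousOn (h1.clm_apply continuousOn_const)
  exact (h2 1).sub (continuousOn_const.mul (h2 I))

theorem conv_supp {U : Set ℂ} (hU : IsOpen U) {φ : ℂ → ℝ} (hφ : ConvexOn ℝ U φ)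
    (hd : ContDiffOn ℝ 1 φ U) : ∃ A : ℂ → ℂ → ℂ, (∀ c ∈ U, DifferentiableOn ℂ (A c) U) ∧
      (∀ c ∈ U, A c c = 1) ∧ (∀ c ∈ U, ∀ z ∈ U, ‖A c z‖ ≤ Real.exp (φ z - φ c)) ∧
        ContinuousOn (fun q : ℂ × ℂ => A q.1 q.2) (U ×ˢ U) := by
  refine ⟨fun c z => Complex.exp (sl φ c * (z - c)), ?_, ?_, ?_, ?_⟩
  · intro c _
    fun_prop
  · intro c _
    simp
  · intro c hc z hz
    rw [Complex.norm_exp, sl_re]
    have := support hU hφ (hd.differentiableOn one_ne_zero) hc hz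
    exact Real.exp_le_exp.2 (by linarith)
  · refine Complex.continuous_exp.comp_continuousOn ?_
    refine ContinuousOn.mul ?_ ?_
    · exact (sl_cont hU hd).comp continuousOn_fst (fun q hq => hq.1)
    · fun_prop

/-- the Schwarz-Pick factor is at most one -/
theorem sp_le (c z : ℂ) : (1 - ‖c‖ ^ 2) * (1 - ‖z‖ ^ 2) ≤ ‖1 - starRingEnd ℂ c * z‖ ^ 2 := by
  have h1 : ‖1 - starRingEnd ℂ c * z‖ ^ 2 - (1 - ‖c‖ ^ 2) * (1 - ‖z‖ ^ 2) = ‖c - z‖ ^ 2 := by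
    rw [← Complex.normSq_eq_norm_sq, ← Complex.normSq_eq_norm_sq, ← Complex.normSq_eq_norm_sq,
      ← Complex.normSq_eq_norm_sq]
    simp only [Complex.normSq_apply, Complex.sub_re, Complex.sub_im, Complex.one_re,
      Complex.one_im, Complex.mul_re, Complex.mul_im, Complex.conj_re, Complex.conj_im]
    ring
  have h2 : 0 ≤ ‖c - z‖ ^ 2 := by positivity
  linarith

theorem ne_of_ball {c z : ℂ} (hc : ‖c‖ < 1) (hz : ‖z‖ < 1) : 1 - starRingEnd ℂ c * z ≠ 0 := by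
  intro h
  have h1 : starRingEnd ℂ c * z = 1 := (sub_eq_zero.1 h).symm
  have h2 : ‖starRingEnd ℂ c * z‖ = 1 := by rw [h1, norm_one]
  rw [norm_mul, RCLike.norm_conj] at h2
  nlinarith [norm_nonneg c, norm_nonneg z]

theorem main : S_Du := by
  intro n u hconv hdiff
  have hU : IsOpen (ball (0 : ℂ) 1) := isOpen_ball
  have hA := fun j => conv_supp hU (hconv j) (hdiff j)
  choose A hA1 hA2 hA3 hA4 using hA
  set D : Set (ℂ × (Fin n → ℂ)) :=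
    {p | ‖p.1‖ ^ 2 + ∑ j, Real.exp (2 * u j p.1) * ‖p.2 j‖ ^ 2 < 1} with hD
  set Λ : ℂ → ℂ × (Fin n → ℂ) → (Fin n → ℂ) := fun c p j =>
    A j c p.1 * ((1 - (‖c‖ : ℂ) ^ 2) / (1 - starRingEnd ℂ c * p.1)) * p.2 j with hΛ
  have hsum0 : ∀ p : ℂ × (Fin n → ℂ), 0 ≤ ∑ j, Real.exp (2 * u j p.1) * ‖p.2 j‖ ^ 2 :=
    fun p => Finset.sum_nonneg fun j _ => by positivity
  have hsub : ∀ p ∈ D, ‖p.1‖ < 1 := by
    intro p hp
    have h1 := hsum0 p
    have h2 : ‖p.1‖ ^ 2 + ∑ j, Real.exp (2 * u j p.1) * ‖p.2 j‖ ^ 2 < 1 := hp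
    nlinarith [norm_nonneg p.1]
  have hbm : ∀ c : ℂ, c ∈ ball (0 : ℂ) 1 ↔ ‖c‖ < 1 := fun c => mem_ball_zero_iff
  have hopen : IsOpen D := by
    have h1 : ContinuousOn (fun p : ℂ × (Fin n → ℂ) =>
        ‖p.1‖ ^ 2 + ∑ j, Real.exp (2 * u j p.1) * ‖p.2 j‖ ^ 2) {p | p.1 ∈ ball (0 : ℂ) 1} := by
      refine ContinuousOn.add (by fun_prop) ?_
      refine continuousOn_finsetSum _ fun j _ => ?_
      refine ContinuousOn.mul ?_ (by fun_prop)
      refine Real.continuous_exp.comp_continuousOn ?_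
      refine continuousOn_const.mul ?_
      exact (hdiff j).continuousOn.comp continuousOn_fst (fun p hp => hp)
    have h2 : IsOpen {p : ℂ × (Fin n → ℂ) | p.1 ∈ ball (0 : ℂ) 1} := hU.preimage continuous_fst
    have h3 := h1.isOpen_inter_preimage h2 (isOpen_Iio (a := (1 : ℝ)))
    have h4 : {p : ℂ × (Fin n → ℂ) | p.1 ∈ ball (0 : ℂ) 1} ∩ (fun p : ℂ × (Fin n → ℂ) =>
        ‖p.1‖ ^ 2 + ∑ j, Real.exp (2 * u j p.1) * ‖p.2 j‖ ^ 2) ⁻¹' Iio 1 = D := by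
      ext p
      constructor
      · rintro ⟨_, h⟩
        exact h
      · intro h
        exact ⟨(hbm _).2 (hsub p h), h⟩
    rw [h4] at h3
    exact h3
  have hdec : ∀ c ∈ ball (0 : ℂ) 1, ∀ p ∈ D, ∀ t : ℂ, ‖t‖ * dd c p.1 ≤ 1 →
      (c, t • Λ c p) ∈ D := by
    intro c hc p hp t ht
    have hc1 : ‖c‖ < 1 := (hbm c).1 hc
    have hp1 : ‖p.1‖ < 1 := hsub p hp
    have hcc : 0 < 1 - ‖c‖ ^ 2 := by nlinarith [norm_nonneg c]
    have hzz : 0 < 1 - ‖p.1‖ ^ 2 := by nlinarith [norm_nonneg p.1]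
    set M : ℝ := ‖1 - starRingEnd ℂ c * p.1‖ with hM
    have hM0 : 0 < M := norm_pos_iff.2 (ne_of_ball hc1 hp1)
    have ht2 : ‖t‖ ^ 2 * ((1 - ‖c‖ ^ 2) * (1 - ‖p.1‖ ^ 2)) ≤ M ^ 2 := by
      unfold dd at ht
      rw [← hM, ← mul_div_assoc, div_le_one hM0] at ht
      have h1 : (‖t‖ * √((1 - ‖c‖ ^ 2) * (1 - ‖p.1‖ ^ 2))) ^ 2 ≤ M ^ 2 := by gcongr
      rw [mul_pow, Real.sq_sqrt (by positivity)] at h1
      exact h1
    set S : ℝ := ∑ j, Real.exp (2 * u j p.1) * ‖p.2 j‖ ^ 2 with hS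
    have hS0 : 0 ≤ S := hsum0 p
    have hS1 : S < 1 - ‖p.1‖ ^ 2 := by
      have h2 : ‖p.1‖ ^ 2 + S < 1 := hp
      linarith
    have hterm : ∀ j, Real.exp (2 * u j c) * ‖(t • Λ c p) j‖ ^ 2 ≤
        (‖t‖ ^ 2 * (1 - ‖c‖ ^ 2) ^ 2 / M ^ 2) * (Real.exp (2 * u j p.1) * ‖p.2 j‖ ^ 2) := by
      intro j
      have h1 : ‖(t • Λ c p) j‖ = ‖t‖ * (‖A j c p.1‖ * ((1 - ‖c‖ ^ 2) / M) * ‖p.2 j‖) := by
        show ‖t * (A j c p.1 * ((1 - (‖c‖ : ℂ) ^ 2) / (1 - starRingEnd ℂ c * p.1)) * p.2 j)‖ = _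
        have h2 : (1 - (‖c‖ : ℂ) ^ 2) = ((1 - ‖c‖ ^ 2 : ℝ) : ℂ) := by push_cast; rfl
        rw [norm_mul, norm_mul, norm_mul, norm_div, h2, Complex.norm_real,
          Real.norm_of_nonneg hcc.le]
      have h2 := hA3 j c hc p.1 ((hbm _).2 hp1)
      have h3 : Real.exp (2 * u j c) * ‖A j c p.1‖ ^ 2 ≤ Real.exp (2 * u j p.1) := by
        calc Real.exp (2 * u j c) * ‖A j c p.1‖ ^ 2 ≤
            Real.exp (2 * u j c) * Real.exp (u j p.1 - u j c) ^ 2 := by gcongr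
          _ = Real.exp (2 * u j p.1) := by
              rw [← Real.exp_nat_mul, ← Real.exp_add]
              congr 1
              push_cast
              ring
      rw [h1]
      calc Real.exp (2 * u j c) * (‖t‖ * (‖A j c p.1‖ * ((1 - ‖c‖ ^ 2) / M) * ‖p.2 j‖)) ^ 2
          = (‖t‖ ^ 2 * (1 - ‖c‖ ^ 2) ^ 2 / M ^ 2) *
            ((Real.exp (2 * u j c) * ‖A j c p.1‖ ^ 2) * ‖p.2 j‖ ^ 2) := by
              field_simp
        _ ≤ (‖t‖ ^ 2 * (1 - ‖c‖ ^ 2) ^ 2 / M ^ 2) *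
            (Real.exp (2 * u j p.1) * ‖p.2 j‖ ^ 2) := by gcongr
    show ‖c‖ ^ 2 + ∑ j, Real.exp (2 * u j c) * ‖(t • Λ c p) j‖ ^ 2 < 1
    have hsum : ∑ j, Real.exp (2 * u j c) * ‖(t • Λ c p) j‖ ^ 2 ≤
        (‖t‖ ^ 2 * (1 - ‖c‖ ^ 2) ^ 2 / M ^ 2) * S := by
      rw [hS, Finset.mul_sum]
      exact Finset.sum_le_sum fun j _ => hterm j
    have hlt : ‖t‖ ^ 2 * ((1 - ‖c‖ ^ 2) * S) < M ^ 2 := by
      rcases (norm_nonneg t).eq_or_lt with h | h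
      · rw [← h]
        have : 0 < M ^ 2 := by positivity
        simpa using this
      · calc ‖t‖ ^ 2 * ((1 - ‖c‖ ^ 2) * S) < ‖t‖ ^ 2 * ((1 - ‖c‖ ^ 2) * (1 - ‖p.1‖ ^ 2)) := by
              gcongr
          _ ≤ M ^ 2 := ht2
    have hfin : (‖t‖ ^ 2 * (1 - ‖c‖ ^ 2) ^ 2 / M ^ 2) * S < 1 - ‖c‖ ^ 2 := by
      have e : (‖t‖ ^ 2 * (1 - ‖c‖ ^ 2) ^ 2 / M ^ 2) * S =
          (1 - ‖c‖ ^ 2) * (‖t‖ ^ 2 * ((1 - ‖c‖ ^ 2) * S)) / M ^ 2 := by ring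
      rw [e, div_lt_iff₀ (by positivity)]
      exact mul_lt_mul_of_pos_left hlt hcc
    linarith
  refine ⟨Λ, ⟨⟨hopen, fun p hp => (hbm _).2 (hsub p hp), ?_, ?_, ?_, ?_⟩, ?_, hdec⟩⟩
  · intro c hc p hp
    have hc1 : ‖c‖ < 1 := (hbm c).1 hc
    have hp1 : ‖p.1‖ < 1 := hsub p hp
    have h1 := hdec c hc p hp 1 (by
      rw [norm_one, one_mul]
      unfold dd
      rw [div_le_one (norm_pos_iff.2 (ne_of_ball hc1 hp1))]
      exact Real.sqrt_le_iff.2 ⟨norm_nonneg _, sp_le c p.1⟩)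
    rw [one_smul] at h1
    exact h1
  · intro c y hy
    have hc1 : ‖c‖ < 1 := hsub (c, y) hy
    funext j
    show A j c c * ((1 - (‖c‖ : ℂ) ^ 2) / (1 - starRingEnd ℂ c * c)) * y j = y j
    have h1 : starRingEnd ℂ c * c = (‖c‖ : ℂ) ^ 2 := by
      rw [mul_comm, Complex.mul_conj, Complex.normSq_eq_norm_sq]
      push_cast
      rfl
    have h2 := ne_of_ball hc1 hc1
    rw [h1] at h2
    rw [hA2 j c ((hbm c).2 hc1), h1, div_self h2]
    ring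
  · intro c hc p hp
    have hc1 : ‖c‖ < 1 := (hbm c).1 hc
    have hp1 : ‖p.1‖ < 1 := hsub p hp
    refine differentiableAt_pi.2 (fun j => ?_)
    have h1 : DifferentiableAt ℂ (A j c) p.1 :=
      (hA1 j c hc).differentiableAt (hU.mem_nhds ((hbm _).2 hp1))
    have h2 : DifferentiableAt ℂ (fun p : ℂ × (Fin n → ℂ) => A j c p.1) p :=
      DifferentiableAt.comp (f := fun p : ℂ × (Fin n → ℂ) => p.1) p h1 differentiableAt_fst
    have h3 : DifferentiableAt ℂ (fun p : ℂ × (Fin n → ℂ) => p.2 j) p := by fun_prop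
    have h4 : DifferentiableAt ℂ (fun p : ℂ × (Fin n → ℂ) =>
        (1 - (‖c‖ : ℂ) ^ 2) / (1 - starRingEnd ℂ c * p.1)) p := by
      have h5 : DifferentiableAt ℂ (fun p : ℂ × (Fin n → ℂ) => 1 - starRingEnd ℂ c * p.1) p := by
        fun_prop
      have h6 : (fun p : ℂ × (Fin n → ℂ) => 1 - starRingEnd ℂ c * p.1) p ≠ 0 := ne_of_ball hc1 hp1
      have h7 : DifferentiableAt ℂ (fun p : ℂ × (Fin n → ℂ) =>
          (1 - starRingEnd ℂ c * p.1)⁻¹) p := DifferentiableAt.fun_inv h5 h6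
      have h8 := h7.const_mul (1 - (‖c‖ : ℂ) ^ 2)
      simpa only [div_eq_mul_inv] using h8
    exact (h2.fun_mul h4).fun_mul h3
  · intro y
    refine continuousOn_pi.2 (fun j => ?_)
    have h1 : ContinuousOn (fun q : ℂ × ℂ => A j q.1 q.2)
        {q | q.1 ∈ ball (0 : ℂ) 1 ∧ (q.2, y) ∈ D} :=
      (hA4 j).mono (fun q hq => ⟨hq.1, (hbm _).2 (hsub _ hq.2)⟩)
    have h2 : ContinuousOn (fun q : ℂ × ℂ => (1 - (‖q.1‖ : ℂ) ^ 2) /
        (1 - starRingEnd ℂ q.1 * q.2)) {q | q.1 ∈ ball (0 : ℂ) 1 ∧ (q.2, y) ∈ D} := by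
      refine ContinuousOn.div ?_ ?_ ?_
      · fun_prop
      · have : Continuous fun q : ℂ × ℂ => 1 - starRingEnd ℂ q.1 * q.2 :=
          continuous_const.sub ((Complex.continuous_conj.comp continuous_fst).mul continuous_snd)
        exact this.continuousOn
      · intro q hq
        exact ne_of_ball ((hbm _).1 hq.1) (hsub _ hq.2)
    exact (h1.mul h2).mul continuousOn_const
  · intro c hc
    show ‖c‖ ^ 2 + ∑ j, Real.exp (2 * u j c) * ‖(0 : Fin n → ℂ) j‖ ^ 2 < 1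
    have hc1 : ‖c‖ < 1 := (hbm c).1 hc
    simp only [Pi.zero_apply, norm_zero]
    norm_num
    exact hc1
end Pool.Agent.W806.Cor
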